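import Pool.Agent.W647.HZ3

/-!
# The Chern character vanishes on the projective modules of groups of type `FP`

A group `G` of type `FP`, with resolution `P_i`, is of type `FF` if and only if the Wall class
`∑ (-1)^i [P_i]` is zero in the reduced projective class group of `ℤ[G]`. We prove that the
Chern character (Connes, Karoubi) `K₀(ℤ[G]) → H_{2k}(G; ℚ)`, the component at the conjugacy class
of `1`, is zero for all `k ≥ 1`, for all groups of type `FP_∞`. The value at the class of an idempotent
matrix `e`, evaluated on the class of an alternating homogeneous cocycle `c` of degree `2k`, is up to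
a nonzero factor the number `∑ tr(e_{w 0} e_{w 1} ⋯ e_{w (2k)}) c (1, w₀, w₀ w₁, …, w₀ ⋯ w_{2k-1})`,
the sum over all `w ∈ G ^ (2k+1)` with product `1`, where `e_s` is the matrix of coefficients at `s`.
-/

set_option autoImplicit false

namespace Pool.Agent.Results.MP_d19827_al.ProjectiveChernVanishing

open Pool.Agent.W647.HX1 Pool.Agent.W647.HZ1

universe u1 u2 u3

/-- Let `G` be a group and `k ≥ 1`. Assume that `G` is of type `FP_∞`, or that `H_{2k}(G; ℤ)` has no
nonzero element which is divisible by all `N ≥ 1`. Let `T₀ : R → ℤ` be a trace on the ring `R` (for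
example `R = ℤ`), `e` an idempotent matrix over `R[G]`, and `c` an alternating homogeneous cocycle of
degree `2k` with values in any abelian group `A`. Then `((2k)!/k!) (2k+2)! τ = 0` for the number `τ` of
`e` and `c`, and `τ = 0` if `A` is torsion-free. -/
theorem result (G : Type) [Group G] (k : ℕ) (hk : 1 ≤ k)
    (h : TypeFPInf G ∨ ∀ x : groupHomology (Rep.trivial ℤ G ℤ) (2 * k),
      (∀ N : ℕ, N ≠ 0 → ∃ y, x = N • y) → x = 0)
    (R : Type u1) [Ring R] (T₀ : R →+ ℤ) (hT : ∀ x y, T₀ (x * y) = T₀ (y * x))
    (d : Type u2) [Fintype d] [DecidableEq d] (e : Matrix d d (MonoidAlgebra R G))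
    (he : e * e = e) (A : Type u3) [AddCommGroup A]
    (c : (Fin (2 * k + 1) → G) → A) (hc : IsAltCocycle c) :
    ((2 * k).descFactorial k * (2 * k + 2).factorial) • evenNumber T₀ c e = 0 ∧
      ((∀ (n : ℕ) (a : A), n ≠ 0 → n • a = 0 → a = 0) → evenNumber T₀ c e = 0) := by
  refine even_final hk (Or.inl ?_) T₀ hT e he c hc
  rcases h with h | h
  · exact h.red _
  · exact h

end Pool.Agent.Results.MP_d19827_al.ProjectiveChernVanishing
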